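import Pool.Agent.N737.AI.Top

set_option autoImplicit false

/-!
# Even congruent numbers in almost all intervals of length `C X^(9/16)`, in all classes mod `16`

For every `ε > 0` there are `c, C > 0` such that for all large `X` all but at most `ε X` of the
integers `x ≤ X` have the following property: for each of the classes `r = 2, 6, 10, 14` modulo `16`
and ALL `1 ≤ K ≤ c X^(3/16)` the interval `[x, x + C K X^(9/16)]` contains at least `K` squarefree
congruent numbers `n ≡ r` modulo `16`.

The starting results on this page treat intervals of length `X^θ` with `θ > 3/4`, the hand-in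
`AlmostPrimeIntervals` those with `θ > 2/3` (all intervals); for almost all intervals the exponent
`9/16` suffices.  In the classes `2` and `10` (`n ≡ 2` modulo `8`) the condition `2 |C_n| = |D_n|` of
the question is a real condition and the congruent numbers have density zero.

Proof: see `MP_05dcdc_nt.AlmostAllIntervals` (odd classes); the numbers are `(T⁴ - r⁴) / 16`, where
`T ≡ 1` modulo `64` and `r` lies in a class modulo `64` which depends on the class of `n`.
-/

namespace Pool.Agent.Results.MP_f126a2_nt.AlmostAllEvenIntervals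

/-- `n` is a congruent number: the area of a right triangle with rational sides. -/
def IsCongruent (n : ℕ) : Prop :=
  ∃ a b c : ℚ, 0 < a ∧ 0 < b ∧ 0 < c ∧ a ^ 2 + b ^ 2 = c ^ 2 ∧ (n : ℚ) = a * b / 2

/-- **Almost all intervals of length `C K X^(9/16)`, all `K` at once, even numbers.** For every
`ε > 0` there are `c, C > 0` and `X₀` such that for all `X ≥ X₀` the following holds for all but at
most `ε X` of the integers `1 ≤ x ≤ X`: for each `r = 2, 6, 10, 14` and every integer
`1 ≤ K ≤ c X^(3/16)` there are at least `K` squarefree congruent numbers `n ≡ r` modulo `16` with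
`x ≤ n ≤ x + C K X^(9/16)`. -/
theorem result : ∀ ε : ℝ, 0 < ε → ∃ c C : ℝ, 0 < c ∧ 0 < C ∧ ∃ X₀ : ℕ, ∀ X : ℕ, X₀ ≤ X →
    (({x : ℕ | 1 ≤ x ∧ x ≤ X ∧ ¬ ∀ r : ℕ, (r = 2 ∨ r = 6 ∨ r = 10 ∨ r = 14) → ∀ K : ℕ, 1 ≤ K →
      (K : ℝ) ≤ c * (X : ℝ) ^ (3 / 16 : ℝ) →
        K ≤ {n : ℕ | x ≤ n ∧ (n : ℝ) ≤ x + C * K * (X : ℝ) ^ (9 / 16 : ℝ) ∧ n % 16 = r ∧
          Squarefree n ∧ IsCongruent n}.ncard}.ncard : ℕ) : ℝ) ≤ ε * X := by
  classical
  intro ε hε
  obtain ⟨c, C, hc, hC, X₀, h⟩ := Pool.Agent.N737.AI.main2 ε hε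
  refine ⟨c, C, hc, hC, X₀, fun X hX => ?_⟩
  refine le_trans (Nat.cast_le.2 ?_) (h X hX)
  rw [← Set.ncard_coe_finset]
  apply Set.ncard_le_ncard
  · rintro x ⟨hx1, hx2, hx3⟩
    rw [Finset.mem_coe, Finset.mem_filter, Finset.mem_Icc]
    refine ⟨⟨hx1, hx2⟩, fun hall => hx3 fun r hr K hK1 hK2 => ?_⟩
    exact hall r (by omega) (by omega) K hK1 hK2
  · exact Finset.finite_toSet _

end Pool.Agent.Results.MP_f126a2_nt.AlmostAllEvenIntervals
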