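import Pool.Agent.N737.BC.Even

set_option autoImplicit false

/-!
# Clusters of bounded length of even squarefree congruent numbers in all classes modulo `16`

There are absolute constants `c, C > 0` such that for all large `X` and all `1 ≤ K ≤ c X^(1/4)` at
least `c X^(1/4)` of the `n ≤ X` have the following property: for each `r = 2, 6, 10, 14` the
interval `[n, n + C K⁴]` contains at least `K` squarefree congruent numbers `≡ r` modulo `16`.
The length of the interval does not depend on `X`; for the classes `2` and `6` modulo `8`, one at a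
time, the result `Clusters` of this page has the length `C K⁴ X^(1/3)`.

Proof.  The numbers are `(T⁴ - r⁴) / 16` as in `MP_05dcdc_nt.BoundedClusters` (odd classes); here
`r` has to be chosen modulo `64`.  The number is `2` modulo `4` when `T² ≡ r² + 16` modulo `32`.
-/

namespace Pool.Agent.Results.MP_f126a2_nt.BoundedEvenClusters

/-- `n` is a congruent number: the area of a right triangle with rational sides. -/
def IsCongruent (n : ℕ) : Prop :=
  ∃ a b c : ℚ, 0 < a ∧ 0 < b ∧ 0 < c ∧ a ^ 2 + b ^ 2 = c ^ 2 ∧ (n : ℚ) = a * b / 2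

/-- **Clusters of bounded length, even numbers.** There are constants `c, C > 0` and `X₀` such that
for all real `X ≥ X₀` and all integers `1 ≤ K ≤ c X^(1/4)` there are at least `c X^(1/4)` integers
`n ≤ X` such that for each `r = 2, 6, 10, 14` the interval `[n, n + C K⁴]` contains at least `K`
squarefree congruent numbers `m ≡ r` modulo `16`. -/
theorem result : ∃ c C X₀ : ℝ, 0 < c ∧ 0 < C ∧ ∀ X : ℝ, X₀ ≤ X → ∀ K : ℕ, 1 ≤ K →
    (K : ℝ) ≤ c * X ^ (1 / 4 : ℝ) →
    c * X ^ (1 / 4 : ℝ) ≤ (({n : ℕ | (n : ℝ) ≤ X ∧ ∀ r : ℕ, (r = 2 ∨ r = 6 ∨ r = 10 ∨ r = 14) →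
      K ≤ {m : ℕ | n ≤ m ∧ (m : ℝ) ≤ n + C * (K : ℝ) ^ 4 ∧ m % 16 = r ∧ Squarefree m ∧
        IsCongruent m}.ncard}.ncard : ℕ) : ℝ) :=
  Pool.Agent.N737.BC.clusters16

end Pool.Agent.Results.MP_f126a2_nt.BoundedEvenClusters
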